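import Pool.Agent.R877.RN.Stm

namespace R877.RN
open Matrix Filter Topology

namespace PERT

variable {n : ℕ}

/-- the Ricci form of `ℝY ⊕ n` -/
noncomputable def G (s : ℝ) (ν : Br n) (A : Mat n) (x : Fin n → ℝ) (y : ℝ) : ℝ :=
  qf (Mm ν + (1/(2*s)) • com A - (A.trace / s) • sy A) x
      - y * (∑ p, ∑ i, ∑ k, x p * ν p i k * A k i) - y^2 * (∑ i, ∑ j, (sy A i j)^2)

theorem cont_Mm : Continuous (fun ν : Br n => Mm ν) := by
  refine continuous_matrix fun i j => ?_
  unfold Mm
  fun_prop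

theorem cont_sy : Continuous (fun A : Mat n => sy A) := by
  unfold sy
  fun_prop

theorem cont_com : Continuous (fun A : Mat n => com A) := by
  unfold com
  fun_prop

theorem cont_G (s : ℝ) : Continuous
    (fun z : (Br n × Mat n) × ((Fin n → ℝ) × ℝ) => G s z.1.1 z.1.2 z.2.1 z.2.2) := by
  have h1 : Continuous (fun z : (Br n × Mat n) × ((Fin n → ℝ) × ℝ) => Mm z.1.1) :=
    cont_Mm.comp (by fun_prop)
  have h2 : Continuous (fun z : (Br n × Mat n) × ((Fin n → ℝ) × ℝ) => sy z.1.2) :=
    cont_sy.comp (by fun_prop)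
  have h3 : Continuous (fun z : (Br n × Mat n) × ((Fin n → ℝ) × ℝ) => com z.1.2) :=
    cont_com.comp (by fun_prop)
  have h4 : Continuous (fun z : (Br n × Mat n) × ((Fin n → ℝ) × ℝ) => (z.1.2).trace) :=
    Continuous.matrix_trace (by fun_prop)
  unfold G
  refine Continuous.sub (Continuous.sub ?_ ?_) ?_
  · unfold qf
    refine Continuous.dotProduct (by fun_prop) (Continuous.matrix_mulVec ?_ (by fun_prop))
    exact (h1.add (h3.const_smul (1/(2*s) : ℝ))).sub ((h4.div_const s).smul h2)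
  · refine Continuous.mul (by fun_prop) ?_
    fun_prop
  · refine Continuous.mul (by fun_prop) ?_
    refine continuous_finsetSum _ fun i _ => continuous_finsetSum _ fun j _ => ?_
    exact ((continuous_apply_apply i j).comp h2).pow 2

theorem hom_G (s : ℝ) (ν : Br n) (A : Mat n) (x : Fin n → ℝ) (y t : ℝ) :
    G s ν A (t • x) (t * y) = t ^ 2 * G s ν A x y := by
  unfold G
  have h1 : ∀ B : Mat n, qf B (t • x) = t ^ 2 * qf B x := by
    intro B
    unfold qf
    rw [mulVec_smul, dotProduct_smul, smul_dotProduct]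
    simp only [smul_eq_mul]
    ring
  have h2 : (∑ p, ∑ i, ∑ k, (t • x) p * ν p i k * A k i) =
      t * ∑ p, ∑ i, ∑ k, x p * ν p i k * A k i := by
    simp only [Finset.mul_sum, Pi.smul_apply, smul_eq_mul, mul_assoc]
  rw [h1, h2]
  ring

end PERT

open PERT in
theorem p_PERT : P_PERT := by
  intro n ν ν0 Nj S d s hν hN hS hSS _ hs hsd _ hneg hcr
  have htr : S.trace = s := by
    have h1 : (sy S).trace = S.trace := by
      unfold sy
      rw [trace_smul, trace_add, trace_transpose, smul_eq_mul]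
      ring
    rw [← h1, hS, trace_diagonal, hsd]
  have hcom : com S = 0 := by
    unfold com
    rw [hSS, sub_self]
  have hdd : 0 < ∑ i, ∑ j, (sy S i j)^2 := by
    rw [hS]
    by_contra hc
    have h0 : ∀ i, d i = 0 := by
      intro i
      by_contra hi
      apply hc
      have h1 : (diagonal d i i : ℝ) ^ 2 ≤ ∑ j, (diagonal d i j : ℝ)^2 :=
        Finset.single_le_sum (f := fun j => (diagonal d i j : ℝ)^2) (fun j _ => sq_nonneg _)
          (Finset.mem_univ i)
      have h2 : (∑ j, (diagonal d i j : ℝ)^2) ≤ ∑ i, ∑ j, (diagonal d i j : ℝ)^2 :=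
        Finset.single_le_sum (f := fun i => ∑ j, (diagonal d i j : ℝ)^2)
          (fun i _ => Finset.sum_nonneg fun j _ => sq_nonneg _) (Finset.mem_univ i)
      have h3 : 0 < (diagonal d i i : ℝ) ^ 2 := by
        rw [diagonal_apply_eq]
        positivity
      linarith
    have : s = 0 := by
      rw [hsd]
      exact Finset.sum_eq_zero fun i _ => h0 i
    linarith
  have hG0 : ∀ (x : Fin n → ℝ) (y : ℝ), (x ≠ 0 ∨ y ≠ 0) → G s ν0 S x y < 0 := by
    intro x y hxy
    have e : G s ν0 S x y = qf (Mm ν0 - diagonal d) x - y^2 * (∑ i, ∑ j, (sy S i j)^2) := by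
      unfold G
      rw [hcr x, hcom, htr, div_self hs.ne', smul_zero, add_zero, one_smul, mul_zero, sub_zero]
      rw [hS]
    rw [e]
    by_cases hx : x = 0
    · have hy : y ≠ 0 := by
        rcases hxy with h | h
        · exact absurd hx h
        · exact h
      have : qf (Mm ν0 - diagonal d) x = 0 := by
        rw [hx]; unfold qf; simp
      rw [this]
      have : 0 < y ^ 2 * (∑ i, ∑ j, (sy S i j)^2) := by positivity
      linarith
    · have h1 := hneg x hx
      have : 0 ≤ y ^ 2 * (∑ i, ∑ j, (sy S i j)^2) := by positivity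
      linarith
  have hK : IsCompact (Metric.sphere (0 : (Fin n → ℝ) × ℝ) 1) := isCompact_sphere _ _
  have hev : ∀ᶠ z : Br n × Mat n in 𝓝 (ν0, S), ∀ w ∈ Metric.sphere (0 : (Fin n → ℝ) × ℝ) 1,
      G s z.1 z.2 w.1 w.2 < 0 := by
    refine hK.eventually_forall_of_forall_eventually ?_
    intro w hw
    have hw0 : w ≠ 0 := by
      intro h
      rw [h] at hw
      simp at hw
    have hlt : G s ν0 S w.1 w.2 < 0 := by
      apply hG0
      by_contra hc
      push Not at hc
      exact hw0 (Prod.ext hc.1 hc.2)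
    exact ((cont_G s).tendsto ((ν0, S), w)).eventually (gt_mem_nhds hlt)
  have hlim : Tendsto (fun j => (ν j, S + Nj j)) atTop (𝓝 (ν0, S)) := by
    refine hν.prodMk_nhds ?_
    have := (tendsto_const_nhds (x := S)).add hN
    rwa [add_zero] at this
  obtain ⟨j, hj⟩ := (hlim.eventually hev).exists
  refine ⟨j, fun x y hxy => ?_⟩
  change G s (ν j) (S + Nj j) x y < 0
  have hne : ((x, y) : (Fin n → ℝ) × ℝ) ≠ 0 := by
    intro h
    rcases hxy with h1 | h1
    · exact h1 (congrArg Prod.fst h)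
    · exact h1 (congrArg Prod.snd h)
  have hnpos : 0 < ‖((x, y) : (Fin n → ℝ) × ℝ)‖ := norm_pos_iff.2 hne
  set r := ‖((x, y) : (Fin n → ℝ) × ℝ)‖ with hr
  have hmem : (r⁻¹ • x, r⁻¹ * y) ∈ Metric.sphere (0 : (Fin n → ℝ) × ℝ) 1 := by
    rw [mem_sphere_zero_iff_norm]
    have : ((r⁻¹ • x, r⁻¹ * y) : (Fin n → ℝ) × ℝ) = r⁻¹ • ((x, y) : (Fin n → ℝ) × ℝ) := rfl
    rw [this, norm_smul, norm_inv, Real.norm_of_nonneg hnpos.le, ← hr, inv_mul_cancel₀ hnpos.ne']
  have h1 := hj _ hmem
  simp only at h1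
  rw [hom_G] at h1
  have : 0 < r⁻¹ ^ 2 := by positivity
  exact (pos_iff_neg_of_mul_neg h1).1 this

end R877.RN
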